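import Pool.Agent.helper77.BND.SpecD

/-!
# Project bnd (MP_376aaf_an), row BLK: the block of a point
-/

set_option autoImplicit false

open scoped Topology
open Finset

namespace Pool.Agent.BND

open Pool.Agent.CZ Pool.Agent.PV

theorem BLK (hSUC : SUC_stmt) (hEME : EME_stmt) : BLK_stmt := by
  intro B M hB α hα hαI x m
  obtain ⟨e0, s0, i0, h1, h2, h3, h4⟩ := (x.2 m).1
  obtain ⟨e, s, i, hC, hi, h5, _⟩ := (hEME (B.L m) (hB.lv m)).2.2.2 e0 s0 i0 h1 h2 h3
  have hx : x.1 m = emb (B.L m) e s i := h4.trans h5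
  refine ⟨e, s, i, hC, hi, hx, ?_⟩
  have hup : ∀ d : ℕ, i + d < (B.L m).h e → ((α ^ (d : ℤ)) x).1 m = emb (B.L m) e s (i + d) := by
    intro d
    induction d with
    | zero =>
      intro _
      rw [Nat.cast_zero, zpow_zero, add_zero]
      exact hx
    | succ d ih =>
      intro hd
      have h6 := (hSUC B M hB α hα hαI ((α ^ (d : ℤ)) x) m e s (i + d) hC (by omega) (ih (by omega))).1 (by omega)
      have h7 : α ^ ((d + 1 : ℕ) : ℤ) = α * α ^ (d : ℤ) := by
        rw [Nat.cast_succ, add_comm, zpow_add, zpow_one]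
      rw [h7]
      exact h6
  have hdn : ∀ d : ℕ, d ≤ i → ((α ^ (-(d : ℤ))) x).1 m = emb (B.L m) e s (i - d) := by
    intro d
    induction d with
    | zero =>
      intro _
      rw [Nat.cast_zero, neg_zero, zpow_zero, Nat.sub_zero]
      exact hx
    | succ d ih =>
      intro hd
      have h6 := (hSUC B M hB α hα hαI ((α ^ (-(d : ℤ))) x) m e s (i - d) hC (by omega) (ih (by omega))).2.2 (by omega)
      have h7 : α ^ (-((d + 1 : ℕ) : ℤ)) = α⁻¹ * α ^ (-(d : ℤ)) := by
        rw [Nat.cast_succ, neg_add_rev, zpow_add, zpow_neg_one]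
      rw [h7]
      have h8 : i - (d + 1) = i - d - 1 := by omega
      rw [h8]
      exact h6
  intro j hj
  rcases le_total i j with h | h
  · obtain ⟨d, rfl⟩ := Nat.exists_eq_add_of_le h
    have h9 : (((i + d : ℕ) : ℤ) - (i : ℤ)) = (d : ℤ) := by
      push_cast
      ring
    rw [h9]
    exact hup d hj
  · obtain ⟨d, hd⟩ := Nat.exists_eq_add_of_le h
    have h9 : ((j : ℤ) - (i : ℤ)) = -(d : ℤ) := by
      rw [hd]
      push_cast
      ring
    have h10 : j = i - d := by omega
    rw [h9, h10]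
    exact hdn d (by omega)

end Pool.Agent.BND
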